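import Mathlib

/-!
# The test modulo a prime
-/

namespace Pool.Agent.H442R3.SD

open Finset

section

variable {n : ℕ}

/-- the matrix at a point -/
def MM (K : Finset ℕ) (c : ℕ → Fin n → Fin n → ℤ) (x : ℕ → ℤ) : Matrix (Fin n) (Fin n) ℤ :=
  fun i j => ∑ k ∈ K, x k * c k i j

/-- the test -/
def Tst (p : ℕ) (K : Finset ℕ) (c : ℕ → Fin n → Fin n → ℤ) (x : ℕ → ℤ) : Prop :=
  ∀ ψ : Fin n → ZMod p,
    (∀ k ∈ K, ∀ i, ∑ j, ((c k i j + c k j i : ℤ) : ZMod p) * ψ j = 0) →
    (∀ i, ∑ k ∈ K, (x k : ZMod p) * ∑ j, ((c k i j - c k j i : ℤ) : ZMod p) * ψ j = 0) → ψ = 0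

theorem test_of_det {p : ℕ} [hp : Fact p.Prime] (hp2 : p ≠ 2) (K : Finset ℕ)
    (c : ℕ → Fin n → Fin n → ℤ) (x : ℕ → ℤ) (h : ¬ (p : ℤ) ∣ (MM K c x).det) : Tst p K c x := by
  intro ψ h1 h2
  have hdet : ((MM K c x).map (Int.castRingHom (ZMod p))).det ≠ 0 := by
    rw [← RingHom.mapMatrix_apply, ← RingHom.map_det]
    intro h0
    exact h ((ZMod.intCast_zmod_eq_zero_iff_dvd _ p).1 h0)
  apply Matrix.eq_zero_of_mulVec_eq_zero hdet
  funext i
  have h2' : (2 : ZMod p) ≠ 0 := by
    intro h0
    have h3 : ((2 : ℕ) : ZMod p) = 0 := by exact_mod_cast h0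
    rw [ZMod.natCast_eq_zero_iff] at h3
    exact hp2 ((Nat.prime_dvd_prime_iff_eq hp.out Nat.prime_two).1 h3)
  have h3 : (2 : ZMod p) * (((MM K c x).map (Int.castRingHom (ZMod p))).mulVec ψ) i = 0 := by
    have e1 : ∑ k ∈ K, (x k : ZMod p) * ∑ j, ((c k i j + c k j i : ℤ) : ZMod p) * ψ j = 0 :=
      Finset.sum_eq_zero fun k hk => by rw [h1 k hk i, mul_zero]
    have e2 := h2 i
    have e3 : (2 : ZMod p) * (((MM K c x).map (Int.castRingHom (ZMod p))).mulVec ψ) i =
        ∑ k ∈ K, (x k : ZMod p) * ∑ j, ((c k i j + c k j i : ℤ) : ZMod p) * ψ j +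
        ∑ k ∈ K, (x k : ZMod p) * ∑ j, ((c k i j - c k j i : ℤ) : ZMod p) * ψ j := by
      rw [← Finset.sum_add_distrib]
      simp only [← mul_add, ← Finset.sum_add_distrib, ← add_mul]
      rw [Matrix.mulVec, dotProduct]
      simp only [Matrix.map_apply, MM, eq_intCast, Int.cast_sum, Int.cast_mul, Int.cast_add,
        Int.cast_sub]
      simp only [Finset.mul_sum, Finset.sum_mul]
      rw [Finset.sum_comm]
      apply Finset.sum_congr rfl
      intro k _
      apply Finset.sum_congr rfl
      intro j _
      ring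
    rw [e3, e1, e2, add_zero]
  exact (mul_eq_zero.1 h3).resolve_left h2'

/-- a semidefinite form vanishing at `v` has `v` in its radical -/
theorem radical_of_zero (A : Fin n → Fin n → ℤ) (hA : ∀ v : Fin n → ℤ, 0 ≤ ∑ i, ∑ j, v i * A i j * v j)
    (v : Fin n → ℤ) (hv : ∑ i, ∑ j, v i * A i j * v j = 0) (a : Fin n) :
    ∑ j, (A a j + A j a) * v j = 0 := by
  set b := ∑ j, (A a j + A j a) * v j with hb
  have key : ∀ t : ℤ, 0 ≤ A a a + t * b := by
    intro t
    have h1 := hA (fun i => (if i = a then 1 else 0) + t * v i)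
    have h2 : ∑ i, ∑ j, ((if i = a then 1 else 0) + t * v i) * A i j *
        ((if j = a then 1 else 0) + t * v j) =
        A a a + t * b + t * t * ∑ i, ∑ j, v i * A i j * v j := by
      have e1 : ∀ i j, ((if i = a then (1:ℤ) else 0) + t * v i) * A i j *
        ((if j = a then 1 else 0) + t * v j) =
          (if i = a then (if j = a then A i j else 0) else 0) +
          (if i = a then t * (A i j * v j) else 0) +
          (if j = a then t * (A i j * v i) else 0) + t * t * (v i * A i j * v j) := by
        intro i j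
        split_ifs <;> ring
      simp only [e1, Finset.sum_add_distrib, Finset.mul_sum]
      simp only [Finset.sum_ite_eq', Finset.mem_univ, if_true]
      have e2 : ∑ i, ∑ j, (if i = a then (if j = a then A i j else 0) else 0) = A a a := by
        rw [Finset.sum_eq_single a]
        · simp
        · intro i _ hi
          simp [hi]
        · simp
      have e3 : ∑ i, ∑ j, (if i = a then t * (A i j * v j) else 0) = ∑ j, t * (A a j * v j) := by
        rw [Finset.sum_eq_single a]
        · simp
        · intro i _ hi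
          simp [hi]
        · simp
      rw [e2, e3, hb, Finset.mul_sum]
      congr 1
      rw [add_assoc, ← Finset.sum_add_distrib]
      congr 1
      apply Finset.sum_congr rfl
      intro j _
      ring
    rw [h2, hv, mul_zero, add_zero] at h1
    exact h1
  by_contra hne
  have h0 : 0 ≤ A a a := by simpa using key 0
  have h1 := key (-(b * (A a a + 1)))
  have h2 : 1 ≤ b * b := by
    have : 0 < b * b := mul_self_pos.2 hne
    linarith
  nlinarith

theorem det_of_test {p : ℕ} [hp : Fact p.Prime] (K : Finset ℕ) (c : ℕ → Fin n → Fin n → ℤ)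
    (hs : ∀ k ∈ K, (∀ v : Fin n → ℤ, 0 ≤ ∑ i, ∑ j, v i * c k i j * v j) ∨
      (∀ v : Fin n → ℤ, ∑ i, ∑ j, v i * c k i j * v j ≤ 0))
    (x : ℕ → ℤ) (hT : Tst p K c x) : ∃ x' : ℕ → ℤ, (MM K c x').det ≠ 0 := by
  classical
  have hpp : (0 : ℤ) < p := by exact_mod_cast hp.out.pos
  let x' : ℕ → ℤ := fun k => if (∀ v : Fin n → ℤ, 0 ≤ ∑ i, ∑ j, v i * c k i j * v j) then
    x k % p + p else x k % p - p
  refine ⟨x', ?_⟩
  have hx' : ∀ k, ((x' k : ℤ) : ZMod p) = (x k : ZMod p) := by
    intro k
    simp only [x']
    split_ifs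
    · rw [Int.cast_add, ZMod.intCast_mod, Int.cast_natCast, ZMod.natCast_self, add_zero]
    · rw [Int.cast_sub, ZMod.intCast_mod, Int.cast_natCast, ZMod.natCast_self, sub_zero]
  have hrad : ∀ v : Fin n → ℤ, (MM K c x').mulVec v = 0 → ∀ k ∈ K, ∀ a,
      ∑ j, (c k a j + c k j a) * v j = 0 := by
    intro v hv k hk a
    have h1 : ∑ k ∈ K, x' k * ∑ i, ∑ j, v i * c k i j * v j = 0 := by
      have h2 : dotProduct v ((MM K c x').mulVec v) = 0 := by rw [hv, dotProduct_zero]
      rw [← h2]
      simp only [dotProduct, Matrix.mulVec, MM, Finset.mul_sum, Finset.sum_mul]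
      rw [Finset.sum_comm]
      apply Finset.sum_congr rfl
      intro i _
      rw [Finset.sum_comm]
      apply Finset.sum_congr rfl
      intro j _
      apply Finset.sum_congr rfl
      intro k _
      ring
    have hnn : ∀ k ∈ K, 0 ≤ x' k * ∑ i, ∑ j, v i * c k i j * v j := by
      intro k hk
      simp only [x']
      split_ifs with h
      · refine mul_nonneg ?_ (h v)
        have := Int.emod_nonneg (x k) hpp.ne'
        omega
      · refine mul_nonneg_of_nonpos_of_nonpos ?_ ((hs k hk).resolve_left h v)
        have := Int.emod_lt_of_pos (x k) hpp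
        omega
    have h3 := (Finset.sum_eq_zero_iff_of_nonneg hnn).1 h1 k hk
    have h4 : x' k ≠ 0 := by
      simp only [x']
      have := Int.emod_lt_of_pos (x k) hpp
      have := Int.emod_nonneg (x k) hpp.ne'
      split_ifs <;> omega
    have h5 := (mul_eq_zero.1 h3).resolve_left h4
    rcases hs k hk with h | h
    · exact radical_of_zero (c k) h v h5 a
    · have h6 := radical_of_zero (fun i j => - c k i j) (fun v => by
        have := h v
        simp only [mul_neg, neg_mul, Finset.sum_neg_distrib]
        linarith) v (by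
        simp only [mul_neg, neg_mul, Finset.sum_neg_distrib]
        rw [h5, neg_zero]) a
      have h7 : ∑ j, (-c k a j + -c k j a) * v j = - ∑ j, (c k a j + c k j a) * v j := by
        rw [← Finset.sum_neg_distrib]
        apply Finset.sum_congr rfl
        intro j _
        ring
      rw [h7] at h6
      exact neg_eq_zero.1 h6
  have hdvd : ∀ v : Fin n → ℤ, (MM K c x').mulVec v = 0 → ∀ i, (p : ℤ) ∣ v i := by
    intro v hv i
    have hr := hrad v hv
    have h0 : (fun i => ((v i : ℤ) : ZMod p)) = 0 := by
      apply hT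
      · intro k hk i
        have := congrArg (Int.cast : ℤ → ZMod p) (hr k hk i)
        rw [Int.cast_sum, Int.cast_zero] at this
        rw [← this]
        apply Finset.sum_congr rfl
        intro j _
        rw [Int.cast_mul]
      · intro i
        have h1 : ∑ k ∈ K, x' k * ∑ j, (c k i j - c k j i) * v j = 0 := by
          have h2 := congrFun hv i
          have h3 : ∑ k ∈ K, x' k * ∑ j, (c k i j + c k j i) * v j = 0 :=
            Finset.sum_eq_zero fun k hk => by rw [hr k hk i, mul_zero]
          have h4 : ∑ k ∈ K, x' k * ∑ j, (c k i j - c k j i) * v j =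
              2 * (MM K c x').mulVec v i - ∑ k ∈ K, x' k * ∑ j, (c k i j + c k j i) * v j := by
            rw [eq_sub_iff_add_eq, ← Finset.sum_add_distrib]
            simp only [← mul_add, ← Finset.sum_add_distrib, ← add_mul]
            rw [Matrix.mulVec, dotProduct]
            simp only [MM]
            simp only [Finset.mul_sum, Finset.sum_mul]
            rw [Finset.sum_comm]
            apply Finset.sum_congr rfl
            intro j _
            apply Finset.sum_congr rfl
            intro k _
            ring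
          rw [h4, h3, h2, Pi.zero_apply, mul_zero, sub_zero]
        have h5 := congrArg (Int.cast : ℤ → ZMod p) h1
        rw [Int.cast_sum, Int.cast_zero] at h5
        rw [← h5]
        apply Finset.sum_congr rfl
        intro k _
        rw [Int.cast_mul, hx', Int.cast_sum]
        congr 1
        apply Finset.sum_congr rfl
        intro j _
        rw [Int.cast_mul]
    exact (ZMod.intCast_zmod_eq_zero_iff_dvd _ p).1 (congrFun h0 i)
  have hpow : ∀ m : ℕ, ∀ v : Fin n → ℤ, (MM K c x').mulVec v = 0 → ∀ i, (p : ℤ) ^ m ∣ v i := by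
    intro m
    induction m with
    | zero => intro v _ i; simp
    | succ m ih =>
      intro v hv i
      choose w hw using hdvd v hv
      have hvw : v = (p : ℤ) • w := by
        funext i
        rw [hw i]
        rfl
      have h1 : (MM K c x').mulVec w = 0 := by
        rw [hvw, Matrix.mulVec_smul] at hv
        exact (smul_eq_zero.1 hv).resolve_left hpp.ne'
      rw [hw i, pow_succ, mul_comm]
      exact mul_dvd_mul_left _ (ih w h1 i)
  intro hdet
  obtain ⟨v, hv0, hv⟩ := Matrix.exists_mulVec_eq_zero_iff.2 hdet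
  apply hv0
  funext i
  by_contra hne
  have h1 := hpow (v i).natAbs v hv i
  have h2 := Int.natAbs_dvd_natAbs.2 h1
  rw [Int.natAbs_pow, Int.natAbs_natCast] at h2
  have h3 := Nat.le_of_dvd (Int.natAbs_pos.2 hne) h2
  have h4 : (v i).natAbs < p ^ (v i).natAbs := Nat.lt_pow_self hp.out.one_lt
  omega

/-- small values of the variables suffice -/
theorem exists_small (K : Finset ℕ) (c : ℕ → Fin n → Fin n → ℤ)
    (h : ∃ x, (MM K c x).det ≠ 0) (S : Finset ℕ) :
    ∃ x : ℕ → ℤ, (∀ k ∈ S, 0 ≤ x k ∧ x k ≤ n) ∧ (MM K c x).det ≠ 0 := by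
  classical
  induction S using Finset.induction_on with
  | empty =>
    obtain ⟨x, hx⟩ := h
    exact ⟨x, by simp, hx⟩
  | insert k S hk ih =>
    obtain ⟨x, hxS, hx⟩ := ih
    let A : Matrix (Fin n) (Fin n) ℤ := fun i j => if k ∈ K then c k i j else 0
    let B : Matrix (Fin n) (Fin n) ℤ := MM K c (Function.update x k 0)
    have hAB : ∀ t : ℤ, MM K c (Function.update x k t) = t • A + B := by
      intro t
      ext i j
      rw [Matrix.add_apply, Matrix.smul_apply, smul_eq_mul]
      change ∑ l ∈ K, Function.update x k t l * c l i j = t * (if k ∈ K then c k i j else 0) +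
        ∑ l ∈ K, Function.update x k 0 l * c l i j
      by_cases hkK : k ∈ K
      · rw [if_pos hkK, ← Finset.add_sum_erase K _ hkK, ← Finset.add_sum_erase K _ hkK,
          Function.update_self, Function.update_self, zero_mul, zero_add]
        congr 1
        apply Finset.sum_congr rfl
        intro l hl
        rw [Function.update_of_ne (Finset.ne_of_mem_erase hl),
          Function.update_of_ne (Finset.ne_of_mem_erase hl)]
      · rw [if_neg hkK, mul_zero, zero_add]
        apply Finset.sum_congr rfl
        intro l hl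
        have hlk : l ≠ k := fun h => hkK (h ▸ hl)
        rw [Function.update_of_ne hlk, Function.update_of_ne hlk]
    set P := ((Polynomial.X : Polynomial ℤ) • A.map Polynomial.C + B.map Polynomial.C).det with hP
    have hev : ∀ t : ℤ, P.eval t = (MM K c (Function.update x k t)).det := by
      intro t
      rw [hAB, hP, ← Polynomial.coe_evalRingHom, RingHom.map_det]
      congr 1
      ext i j
      simp only [RingHom.mapMatrix_apply, Matrix.map_apply, Matrix.add_apply, Matrix.smul_apply,
        smul_eq_mul, map_add, Polynomial.coe_evalRingHom, Polynomial.eval_mul, Polynomial.eval_X,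
        Polynomial.eval_C]
    have hdeg : P.natDegree ≤ n := by
      have := Polynomial.natDegree_det_X_add_C_le A B
      rwa [Fintype.card_fin] at this
    have hP0 : P ≠ 0 := by
      intro h0
      have := hev (x k)
      rw [h0, Polynomial.eval_zero, Function.update_eq_self] at this
      exact hx this.symm
    have : ∃ t ∈ (Finset.range (n + 1)).image (Nat.cast : ℕ → ℤ), P.eval t ≠ 0 := by
      by_contra hcon
      push Not at hcon
      refine hP0 (Polynomial.eq_zero_of_natDegree_lt_card_of_eval_eq_zero' P _ hcon ?_)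
      rw [Finset.card_image_of_injective _ Nat.cast_injective, Finset.card_range]
      omega
    obtain ⟨t, ht, ht2⟩ := this
    rw [Finset.mem_image] at ht
    obtain ⟨m, hm, rfl⟩ := ht
    rw [Finset.mem_range] at hm
    refine ⟨Function.update x k m, fun l hl => ?_, by rw [← hev]; exact ht2⟩
    rcases eq_or_ne l k with rfl | hlk
    · rw [Function.update_self]
      constructor
      · positivity
      · exact_mod_cast (by omega : m ≤ n)
    · rw [Function.update_of_ne hlk]
      exact hxS l ((Finset.mem_insert.1 hl).resolve_left hlk)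

/-- the Pfaffian relation -/
theorem pf_of_rank (D : Matrix (Fin n) (Fin n) ℤ) (hD : ∀ i j, D j i = - D i j)
    (hr : (D.map (Int.cast : ℤ → ℝ)).rank ≤ 2) (i j k l : Fin n) :
    D i j * D k l - D i k * D j l + D i l * D j k = 0 := by
  have hD0 : ∀ i, D i i = 0 := fun i => by have := hD i i; omega
  let f : Fin 4 → Fin n := ![i, j, k, l]
  have h1 : ((D.map (Int.cast : ℤ → ℝ)).submatrix f f).rank ≤ 2 :=
    (Matrix.rank_submatrix_le _ _ _).trans hr
  have h2 : ((D.map (Int.cast : ℤ → ℝ)).submatrix f f).det = 0 := by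
    by_contra hne
    have h3 := Matrix.rank_of_isUnit ((D.map (Int.cast : ℤ → ℝ)).submatrix f f)
      ((Matrix.isUnit_iff_isUnit_det _).2 (isUnit_iff_ne_zero.2 hne))
    rw [Fintype.card_fin] at h3
    omega
  have h4 : (D.submatrix f f).det = 0 := by
    have h5 : ((D.submatrix f f).map (Int.castRingHom ℝ)).det = 0 := h2
    rw [← RingHom.mapMatrix_apply, ← RingHom.map_det, eq_intCast, Int.cast_eq_zero] at h5
    exact h5
  have h6 : (D.submatrix f f).det = (D i j * D k l - D i k * D j l + D i l * D j k) ^ 2 := by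
    rw [Matrix.det_succ_row_zero]
    simp only [Fin.sum_univ_succ, Fin.sum_univ_zero, Matrix.det_fin_three, Matrix.submatrix_apply,
      f, Fin.succAbove, Matrix.cons_val_zero, Matrix.cons_val_one, Matrix.cons_val]
    simp [Fin.succAbove, Fin.lt_def, Matrix.cons_val]
    rw [hD0 i, hD0 j, hD0 k, hD0 l, hD i j, hD i k, hD i l, hD j k, hD j l, hD k l]
    ring
  rw [h6] at h4
  exact pow_eq_zero_iff (two_ne_zero) |>.1 h4

end

end Pool.Agent.H442R3.SD
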