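import Mathlib

/-!
# Small primes not dividing a given number; small nonzero values of a determinant
-/

namespace Pool.Agent.H442R3.SD

open Finset Nat

theorem sq_le_two_pow : ∀ t : ℕ, 4 ≤ t → t * t ≤ 2 ^ t := by
  intro t ht
  induction t, ht using Nat.le_induction with
  | base => norm_num
  | succ t ht ih =>
    rw [pow_succ]
    nlinarith

theorem exists_prime (B0 b : ℕ) (Δ : ℤ) (hΔ : Δ ≠ 0) (hb : Δ.natAbs < 2 ^ b) (t : ℕ)
    (ht : t = B0 + b + 4) : ∃ p, p.Prime ∧ B0 < p ∧ p ≤ t * t ∧ ¬ (p : ℤ) ∣ Δ := by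
  by_contra hcon
  push Not at hcon
  set n := t * t with hn
  have h1 : 2 ^ n ≤ (n + 1) * Nat.lcmUpto n := Chebyshev.two_pow_le_mul_lcmUpto n
  have hn0 : n ≠ 0 := by rw [hn]; exact Nat.mul_ne_zero (by omega) (by omega)
  have h2 : Nat.lcmUpto n ≤ n ^ (primesLE n).card := by
    rw [Nat.lcmUpto_eq_prod_pow_log]
    exact Finset.prod_le_pow_card _ _ _ fun p hp => Nat.pow_log_le_self p hn0
  have h3 : (primesLE n).card ≤ B0 + b := by
    rw [← Finset.card_filter_add_card_filter_not (s := primesLE n) (fun p => p ≤ B0)]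
    have e1 : ((primesLE n).filter (fun p => p ≤ B0)).card ≤ B0 := by
      have : (primesLE n).filter (fun p => p ≤ B0) ⊆ Finset.Icc 1 B0 := by
        intro p hp
        rw [Finset.mem_filter] at hp
        rw [Finset.mem_Icc]
        exact ⟨(Nat.prime_of_mem_primesLE hp.1).one_le, hp.2⟩
      simpa using Finset.card_le_card this
    have e2 : ((primesLE n).filter (fun p => ¬ p ≤ B0)).card ≤ b := by
      set s := (primesLE n).filter (fun p => ¬ p ≤ B0) with hs
      have e3 : ∏ p ∈ s, p ∣ Δ.natAbs := by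
        refine Finset.prod_primes_dvd _ (fun p hp => ?_) (fun p hp => ?_)
        · rw [hs, Finset.mem_filter] at hp
          exact (Nat.prime_of_mem_primesLE hp.1).prime
        · rw [hs, Finset.mem_filter] at hp
          have := hcon p (Nat.prime_of_mem_primesLE hp.1) (by omega)
            (Nat.le_of_mem_primesLE hp.1)
          exact Int.natCast_dvd.1 this
      have e4 : 2 ^ s.card ≤ ∏ p ∈ s, p := by
        rw [← Finset.prod_const]
        refine Finset.prod_le_prod' (fun p hp => ?_)
        rw [hs, Finset.mem_filter] at hp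
        exact (Nat.prime_of_mem_primesLE hp.1).two_le
      have e5 := Nat.le_of_dvd (Int.natAbs_pos.2 hΔ) e3
      have e6 : 2 ^ s.card < 2 ^ b := by omega
      exact (Nat.pow_lt_pow_iff_right (by norm_num)).1 e6 |>.le
    omega
  have ht4 : 4 ≤ t := by omega
  have h4 : 2 ^ n ≤ n ^ ((primesLE n).card + 2) := by
    refine h1.trans ?_
    rw [pow_add, mul_comm]
    refine Nat.mul_le_mul h2 ?_
    have : 16 ≤ n := by rw [hn]; nlinarith
    nlinarith
  have h5 : n ^ ((primesLE n).card + 2) ≤ 2 ^ (t * ((primesLE n).card + 2)) := by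
    rw [pow_mul]
    exact Nat.pow_le_pow_left (sq_le_two_pow t ht4) _
  have h6 : 2 ^ n ≤ 2 ^ (t * ((primesLE n).card + 2)) := h4.trans h5
  rw [Nat.pow_le_pow_iff_right (by norm_num)] at h6
  have h7 : t * ((primesLE n).card + 2) ≤ t * (t - 2) := Nat.mul_le_mul_left _ (by omega)
  have h8 : t * (t - 2) < t * t := by
    apply Nat.mul_lt_mul_of_pos_left (by omega) (by omega)
  omega

end Pool.Agent.H442R3.SD
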