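import Pool.Agent.H442R3.SD.Enc
import Pool.Agent.H442R3.SD.Int
import Pool.Agent.H442R3.SD.Prm

/-!
# Bound for the determinant
-/

namespace Pool.Agent.H442R3.SD

open Pool.Agent.NPC

/-- coefficient matrices -/
def CC (I : List (List (List (ℤ × ℕ)))) (k : ℕ) (i j : Fin I.length) : ℤ := cof I k i j

/-- variables -/
def KK (I : List (List (List (ℤ × ℕ)))) : Finset ℕ := (vrs I).toFinset

theorem KK_card (I : List (List (List (ℤ × ℕ)))) : (KK I).card ≤ sz I :=
  (List.toFinset_card_le _).trans (vrs_len I)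

theorem det_bound (I : List (List (List (ℤ × ℕ)))) (x : ℕ → ℤ)
    (hx : ∀ k ∈ KK I, 0 ≤ x k ∧ x k ≤ I.length) :
    (MM (KK I) (CC I) x).det.natAbs < 2 ^ (5 * sz I * sz I + 1) := by
  set L := sz I with hL
  have hn : I.length ≤ L := len_le_sz I
  have hLL : (L : ℤ) ≤ 2 ^ L := by exact_mod_cast Nat.lt_two_pow_self.le
  have hL0 : (0 : ℤ) ≤ L := by positivity
  have hent : ∀ i j, AbsoluteValue.abs (MM (KK I) (CC I) x i j) ≤ (2 : ℤ) ^ (4 * L) := by
    intro i j
    rw [AbsoluteValue.abs_apply, MM]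
    refine (Finset.abs_sum_le_sum_abs _ _).trans ?_
    have h1 : ∀ k ∈ KK I, |x k * CC I k i j| ≤ (L : ℤ) * (L * 2 ^ L) := by
      intro k hk
      rw [abs_mul]
      have h2 := hx k hk
      have h3 : |x k| ≤ L := by
        rw [abs_of_nonneg h2.1]
        have : (I.length : ℤ) ≤ L := by exact_mod_cast hn
        exact h2.2.trans this
      exact mul_le_mul h3 (cof_abs I k i j) (abs_nonneg _) hL0
    refine (Finset.sum_le_card_nsmul _ _ _ h1).trans ?_
    rw [nsmul_eq_mul]
    have h4 : ((KK I).card : ℤ) ≤ L := by exact_mod_cast KK_card I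
    have h5 : ((KK I).card : ℤ) * (L * (L * 2 ^ L)) ≤ L * (L * (L * 2 ^ L)) :=
      mul_le_mul_of_nonneg_right h4 (by positivity)
    refine h5.trans ?_
    have h6 : (2 : ℤ) ^ (4 * L) = 2 ^ L * (2 ^ L * (2 ^ L * 2 ^ L)) := by
      rw [← pow_add, ← pow_add, ← pow_add]
      congr 1
      omega
    rw [h6]
    gcongr
  have hdet := Matrix.det_le (abv := (AbsoluteValue.abs : AbsoluteValue ℤ ℤ)) hent
  rw [AbsoluteValue.abs_apply, Fintype.card_fin, nsmul_eq_mul, ← pow_mul] at hdet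
  have h1 : ((I.length.factorial : ℕ) : ℤ) ≤ 2 ^ (L * L) := by
    have h2 : I.length.factorial ≤ I.length ^ I.length := Nat.factorial_le_pow _
    have h3 : I.length ^ I.length ≤ (2 ^ L) ^ I.length :=
      Nat.pow_le_pow_left (hn.trans Nat.lt_two_pow_self.le) _
    have h4 : (2 ^ L) ^ I.length ≤ (2 ^ L) ^ L := Nat.pow_le_pow_right (by positivity) hn
    rw [← pow_mul 2 L L] at h4
    exact_mod_cast (h2.trans h3).trans h4
  have h2 : (2 : ℤ) ^ (4 * L * I.length) ≤ 2 ^ (4 * L * L) :=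
    pow_le_pow_right₀ (by norm_num) (Nat.mul_le_mul_left _ hn)
  have h3 : |(MM (KK I) (CC I) x).det| ≤ 2 ^ (5 * L * L) := by
    refine hdet.trans ((mul_le_mul h1 h2 (by positivity) (by positivity)).trans ?_)
    rw [← pow_add]
    apply pow_le_pow_right₀ (by norm_num)
    have : 5 * L * L = L * L + 4 * L * L := by ring
    omega
  have h4 : (MM (KK I) (CC I) x).det.natAbs ≤ 2 ^ (5 * L * L) := by
    rw [Int.abs_eq_natAbs] at h3
    exact_mod_cast h3
  refine h4.trans_lt ?_
  exact Nat.pow_lt_pow_right (by norm_num) (by omega)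

end Pool.Agent.H442R3.SD
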