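import Pool.Agent.H442R3.MPar.Low

/-!
# Combinations of bivectors of full rank
-/

namespace Pool.Agent.H442R3.SD

open Module Pool.Agent.H442R3.MPar

variable {F : Type*} [Field F] {V : Type*} [AddCommGroup V] [Module F V] [FiniteDimensional F V]

theorem exists_ne_of_finrank {X : Type*} [AddCommGroup X] [Module F X] [FiniteDimensional F X]
    (U : Submodule F X) (hU : 2 ≤ finrank F U) (g : X →ₗ[F] F) :
    ∃ η ∈ U, η ≠ 0 ∧ g η = 0 := by
  by_contra hcon
  push Not at hcon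
  have hinj : Function.Injective (g.domRestrict U) := by
    rw [← LinearMap.ker_eq_bot, LinearMap.ker_eq_bot']
    rintro ⟨η, hη⟩ h0
    by_contra hne
    exact hcon η hη (fun h => hne (Subtype.ext h)) h0
  have h1 := LinearMap.finrank_le_finrank_of_injective hinj
  rw [Module.finrank_self] at h1
  omega

theorem exists_inj (h2 : (2 : F) ≠ 0) (hN : Even (finrank F V))
    (LL : Submodule F (Dual F V →ₗ[F] V)) (hA : ∀ A ∈ LL, Alt A) (W : Set V)
    (Y : Dual F V →ₗ[F] V) (hY : Y ∈ LL)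
    (hYW : ∀ φ : Dual F V, (∀ w ∈ W, φ w = 0) → Y φ = 0 → φ = 0)
    (hW : ∀ w1 ∈ W, ∀ w2 ∈ W, bv w1 w2 ∈ LL) :
    ∃ Z ∈ LL, LinearMap.ker Z = ⊥ := by
  classical
  let P : ℕ → Prop := fun d => ∃ Z ∈ LL, (∀ φ : Dual F V, (∀ w ∈ W, φ w = 0) → Z φ = Y φ) ∧
    finrank F (LinearMap.ker Z) = d
  have hP : ∃ d, P d := ⟨_, Y, hY, fun _ _ => rfl, rfl⟩
  obtain ⟨Z, hZ, hZY, hd⟩ := Nat.find_spec hP
  refine ⟨Z, hZ, ?_⟩
  by_contra hker
  have hdual : finrank F (Dual F V) = finrank F V := Subspace.dual_finrank_eq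
  have heven := (hA Z hZ).even_rank h2
  have hrk := LinearMap.finrank_range_add_finrank_ker Z
  have hpos : 0 < finrank F (LinearMap.ker Z) := by
    rw [Nat.pos_iff_ne_zero]
    intro h0
    exact hker (Submodule.finrank_eq_zero.1 h0)
  have hge : 2 ≤ finrank F (LinearMap.ker Z) := by
    obtain ⟨k, hk⟩ := heven
    obtain ⟨l, hl⟩ := hN
    omega
  have hsep : ∀ η ∈ LinearMap.ker Z, η ≠ 0 → ∃ w ∈ W, η w ≠ 0 := by
    intro η hη hne
    by_contra hcon
    push Not at hcon
    refine hne (hYW η hcon ?_)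
    rw [← hZY η hcon]
    exact LinearMap.mem_ker.1 hη
  obtain ⟨η1, hη1, hne1, -⟩ := exists_ne_of_finrank (LinearMap.ker Z) hge 0
  obtain ⟨w1, hw1, hv1⟩ := hsep η1 hη1 hne1
  obtain ⟨η2, hη2, hne2, h21⟩ := exists_ne_of_finrank (LinearMap.ker Z) hge
    (Dual.eval F V w1)
  rw [Dual.eval_apply] at h21
  obtain ⟨w2, hw2, hv2⟩ := hsep η2 hη2 hne2
  have hmem : Z + bv w1 w2 ∈ LL := Submodule.add_mem _ hZ (hW w1 hw1 w2 hw2)
  have hkey : ∀ φ ∈ LinearMap.ker (Z + bv w1 w2), φ ∈ LinearMap.ker Z ∧ φ w2 = 0 := by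
    intro φ hφ
    rw [LinearMap.mem_ker, LinearMap.add_apply, bv_apply] at hφ
    have e1 := congrArg η1 hφ
    have e2 := congrArg η2 hφ
    rw [map_add, map_sub, map_smul, map_smul, map_zero, (hA Z hZ).skew, LinearMap.mem_ker.1 hη1,
      map_zero, neg_zero, zero_add, smul_eq_mul, smul_eq_mul] at e1
    rw [map_add, map_sub, map_smul, map_smul, map_zero, (hA Z hZ).skew, LinearMap.mem_ker.1 hη2,
      map_zero, neg_zero, zero_add, smul_eq_mul, smul_eq_mul, h21, mul_zero, zero_sub,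
      neg_eq_zero] at e2
    have e3 : φ w1 = 0 := (mul_eq_zero.1 e2).resolve_right hv2
    rw [e3, zero_mul, sub_zero] at e1
    have e4 : φ w2 = 0 := (mul_eq_zero.1 e1).resolve_right hv1
    rw [e3, e4, zero_smul, zero_smul, sub_zero, add_zero] at hφ
    exact ⟨LinearMap.mem_ker.2 hφ, e4⟩
  have hlt : LinearMap.ker (Z + bv w1 w2) < LinearMap.ker Z := by
    refine lt_of_le_of_ne (fun φ hφ => (hkey φ hφ).1) (fun he => ?_)
    rw [← he] at hη2
    exact hv2 (hkey η2 hη2).2
  have hfl := Submodule.finrank_lt_finrank_of_lt hlt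
  rw [hd] at hfl
  refine Nat.find_min hP hfl ⟨_, hmem, fun φ hφ => ?_, rfl⟩
  rw [LinearMap.add_apply, bv_apply, hφ w1 hw1, hφ w2 hw2, zero_smul, zero_smul, sub_zero,
    add_zero, hZY φ hφ]

variable {ι : Type*} [DecidableEq ι] [Fintype ι]

theorem exists_full {r : ℕ} (h2 : (2 : F) ≠ 0) (hN : finrank F V = 2 * r) (a b : ι → V) (W : Set V)
    (Y : Dual F V →ₗ[F] V)
    (hY : Y ∈ Submodule.span F (Set.range fun i => bv (F := F) (a i) (b i)))
    (hYW : ∀ φ : Dual F V, (∀ w ∈ W, φ w = 0) → Y φ = 0 → φ = 0)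
    (hW : ∀ w1 ∈ W, ∀ w2 ∈ W, bv (F := F) w1 w2 ∈
      Submodule.span F (Set.range fun i => bv (F := F) (a i) (b i))) :
    ∃ M : Finset ι, IndepSet F a b M ∧ M.card = r := by
  have hA : ∀ A ∈ Submodule.span F (Set.range fun i => bv (F := F) (a i) (b i)), Alt A := by
    intro A hA
    induction hA using Submodule.span_induction with
    | mem A hA => obtain ⟨i, rfl⟩ := hA; exact alt_bv _ _
    | zero => exact Alt.zero
    | add A B _ _ hA hB => exact hA.add hB
    | smul c A _ hA => exact hA.smul c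
  obtain ⟨Z, hZ, hker⟩ := exists_inj h2 (by rw [hN]; exact even_two_mul r) _ hA W Y hY hYW hW
  obtain ⟨x, hx⟩ := (Submodule.mem_span_range_iff_exists_fun F).1 hZ
  have h1 := LinearMap.finrank_range_add_finrank_ker Z
  rw [hker, finrank_bot, add_zero, Subspace.dual_finrank_eq, hN] at h1
  obtain ⟨M, -, hM1, hM2⟩ := exists_matching h2 r V a b Finset.univ x (by rw [hx, h1])
  exact ⟨M, hM2, hM1⟩

omit [Fintype ι] [FiniteDimensional F V] in
theorem indep_li (a b : ι → V) (M : Finset ι) (hM : IndepSet F a b M) :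
    LinearIndependent F (Sum.elim (fun i : M => a i) (fun i : M => b i)) := by
  rw [Fintype.linearIndependent_iff]
  intro g hg
  rw [Fintype.sum_sum_type] at hg
  let α : ι → F := fun i => if h : i ∈ M then g (Sum.inl ⟨i, h⟩) else 0
  let β : ι → F := fun i => if h : i ∈ M then g (Sum.inr ⟨i, h⟩) else 0
  have h0 : ∑ i ∈ M, (α i • a i + β i • b i) = 0 := by
    rw [← hg, ← Finset.sum_add_distrib, ← Finset.sum_coe_sort]
    apply Finset.sum_congr rfl
    rintro ⟨i, hi⟩ _
    simp only [α, β, dif_pos hi, Sum.elim_inl, Sum.elim_inr]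
  have h1 := hM α β h0
  rintro (⟨i, hi⟩ | ⟨i, hi⟩)
  · have := (h1 i hi).1
    simpa only [α, dif_pos hi] using this
  · have := (h1 i hi).2
    simpa only [β, dif_pos hi] using this

omit [Fintype ι] in
theorem kills_all (a b : ι → V) (M : Finset ι) (hM : IndepSet F a b M)
    (hc : 2 * M.card = finrank F V) (φ : Dual F V) (hφ : ∀ i ∈ M, φ (a i) = 0 ∧ φ (b i) = 0) :
    φ = 0 := by
  have hli := indep_li a b M hM
  have hcard : Fintype.card (M ⊕ M) = finrank F V := by
    rw [Fintype.card_sum, Fintype.card_coe, ← hc, two_mul]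
  have hspan := hli.span_eq_top_of_card_eq_finrank' hcard
  have hle : Submodule.span F (Set.range (Sum.elim (fun i : M => a i) (fun i : M => b i))) ≤
      LinearMap.ker φ := by
    rw [Submodule.span_le]
    rintro _ ⟨i, rfl⟩
    rcases i with ⟨i, hi⟩ | ⟨i, hi⟩
    · exact (hφ i hi).1
    · exact (hφ i hi).2
  rw [hspan] at hle
  ext w
  exact hle (Submodule.mem_top : w ∈ ⊤)

omit [Fintype ι] in
theorem test_of_full (a b : ι → V) (M : Finset ι) (hM : IndepSet F a b M)
    (hc : 2 * M.card = finrank F V) (isJ : ι → Prop) [DecidablePred isJ] (φ : Dual F V)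
    (hφ : ∀ i ∈ M, ¬ isJ i → φ (a i) = 0 ∧ φ (b i) = 0)
    (hJ : ∑ i ∈ M.filter isJ, bv (F := F) (a i) (b i) φ = 0) : φ = 0 := by
  apply kills_all a b M hM hc
  intro i hi
  by_cases h : isJ i
  · have h0 : ∑ i ∈ M, ((if isJ i then φ (b i) else 0) • a i +
        (if isJ i then - φ (a i) else 0) • b i) = 0 := by
      rw [← hJ, Finset.sum_filter]
      apply Finset.sum_congr rfl
      intro j _
      by_cases hj : isJ j
      · rw [if_pos hj, if_pos hj, if_pos hj, bv_apply, neg_smul, sub_eq_add_neg]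
      · rw [if_neg hj, if_neg hj, if_neg hj, zero_smul, zero_smul, add_zero]
    have h1 := hM (fun i => if isJ i then φ (b i) else 0) (fun i => if isJ i then - φ (a i) else 0) h0
      i hi
    simp only [if_pos h] at h1
    exact ⟨neg_eq_zero.1 h1.2, h1.1⟩
  · exact hφ i hi h

end Pool.Agent.H442R3.SD
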