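import Pool.Agent.H442R3.MPar.Loop
import Pool.Agent.NPC.Dec

/-!
# Encoding of symbolic matrices
-/

namespace Pool.Agent.H442R3.SD

open Pool.Agent.NPC

/-- entry -/
def ety (I : List (List (List (ℤ × ℕ)))) (i j : ℕ) : List (ℤ × ℕ) := (I.getD i []).getD j []

/-- coefficient in a list -/
def cfl (l : List (ℤ × ℕ)) (k : ℕ) : ℤ := ((l.filter (fun q => decide (q.2 = k))).map Prod.fst).sum

/-- coefficient -/
def cof (I : List (List (List (ℤ × ℕ)))) (k i j : ℕ) : ℤ := cfl (ety I i j) k

/-- occurring variables -/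
def vrs (I : List (List (List (ℤ × ℕ)))) : List ℕ :=
  I.flatMap (fun r => r.flatMap (fun e => e.map Prod.snd))

theorem cfl_cons (q : ℤ × ℕ) (l : List (ℤ × ℕ)) (k : ℕ) :
    cfl (q :: l) k = (if q.2 = k then q.1 else 0) + cfl l k := by
  rw [cfl, cfl, List.filter_cons]
  by_cases h : q.2 = k
  · simp [h]
  · simp [h]

theorem ev_eq (l : List (ℤ × ℕ)) (K : Finset ℕ) (hK : ∀ q ∈ l, q.2 ∈ K) (x : ℕ → ℤ) :
    (l.map (fun q => q.1 * x q.2)).sum = ∑ k ∈ K, x k * cfl l k := by
  induction l with
  | nil => simp [cfl]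
  | cons q l ih =>
    rw [List.map_cons, List.sum_cons, ih (fun q hq => hK q (List.mem_cons_of_mem _ hq))]
    simp only [cfl_cons, mul_add, Finset.sum_add_distrib]
    congr 1
    rw [Finset.sum_eq_single q.2]
    · rw [if_pos rfl, mul_comm]
    · intro k _ hk
      rw [if_neg hk.symm, mul_zero]
    · intro h
      exact absurd (hK q List.mem_cons_self) h

theorem cfl_eq_zero (l : List (ℤ × ℕ)) (k : ℕ) (hk : ∀ q ∈ l, q.2 ≠ k) : cfl l k = 0 := by
  induction l with
  | nil => rfl
  | cons q l ih =>
    rw [cfl_cons, if_neg (hk q List.mem_cons_self), zero_add,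
      ih (fun q hq => hk q (List.mem_cons_of_mem _ hq))]

theorem mem_vrs {I : List (List (List (ℤ × ℕ)))} {i j : ℕ} {q : ℤ × ℕ} (hq : q ∈ ety I i j) :
    q.2 ∈ vrs I := by
  rw [ety] at hq
  have hi : i < I.length := by
    by_contra h
    rw [List.getD_eq_default I _ (by omega)] at hq
    simp at hq
  have hj : j < (I.getD i []).length := by
    by_contra h
    rw [List.getD_eq_default _ _ (by omega)] at hq
    simp at hq
  rw [List.getD_eq_getElem _ _ hj] at hq
  rw [vrs, List.mem_flatMap]
  refine ⟨I.getD i [], ?_, ?_⟩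
  · rw [List.getD_eq_getElem _ _ hi]; exact List.getElem_mem _
  · rw [List.mem_flatMap]
    exact ⟨_, List.getElem_mem _, List.mem_map.2 ⟨q, hq, rfl⟩⟩

theorem cof_eq_zero (I : List (List (List (ℤ × ℕ)))) (k : ℕ) (hk : k ∉ vrs I) (i j : ℕ) :
    cof I k i j = 0 :=
  cfl_eq_zero _ _ fun _ hq h => hk (h ▸ mem_vrs hq)

theorem len_flatMap {α : Type} [TEnc α] (l : List α) (f : α → List ℕ)
    (hf : ∀ a, (f a).length ≤ sz a) : (l.flatMap f).length ≤ sz l := by
  induction l with
  | nil => simp
  | cons a l ih =>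
    rw [List.flatMap_cons, List.length_append, sz_list_cons]
    have := hf a
    omega

theorem len_le_sz {α : Type} [TEnc α] (l : List α) : l.length ≤ sz l := by
  induction l with
  | nil => simp
  | cons a l ih =>
    rw [List.length_cons, sz_list_cons]
    omega

theorem vrs_len (I : List (List (List (ℤ × ℕ)))) : (vrs I).length ≤ sz I :=
  len_flatMap _ _ fun r => len_flatMap _ _ fun e => by
    rw [List.length_map]; exact len_le_sz e

theorem sz_int (z : ℤ) : sz z = sz (decide (z < 0), z.natAbs) := rfl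

theorem abs_lt_sz (z : ℤ) : |z| < 2 ^ sz z := by
  have h1 := size_le_sz z.natAbs
  have h2 : z.natAbs < 2 ^ z.natAbs.size := Nat.lt_size_self _
  have h3 : z.natAbs.size ≤ sz z := by
    rw [sz_int, sz_pair]
    omega
  have h4 : z.natAbs < 2 ^ sz z := h2.trans_le (Nat.pow_le_pow_right (by norm_num) h3)
  rw [Int.abs_eq_natAbs]
  exact_mod_cast h4

theorem cfl_abs (l : List (ℤ × ℕ)) (k : ℕ) (B : ℤ) (hB0 : 0 ≤ B) (hB : ∀ q ∈ l, |q.1| ≤ B) :
    |cfl l k| ≤ l.length * B := by
  induction l with
  | nil => simp [cfl]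
  | cons q l ih =>
    rw [cfl_cons, List.length_cons]
    have h1 := ih (fun q hq => hB q (List.mem_cons_of_mem _ hq))
    have h2 := hB q List.mem_cons_self
    have h3 := abs_add_le (if q.2 = k then q.1 else 0) (cfl l k)
    have h4 : |if q.2 = k then q.1 else 0| ≤ B := by
      split_ifs
      · exact h2
      · simpa using hB0
    push_cast
    linarith

theorem ety_mem (I : List (List (List (ℤ × ℕ)))) (i j : ℕ) : sz (ety I i j) ≤ sz I := by
  rw [ety]
  rcases lt_or_ge i I.length with hi | hi
  · have h1 : sz (I.getD i []) < sz I := by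
      rw [List.getD_eq_getElem _ _ hi]
      exact sz_le_of_mem (List.getElem_mem _)
    rcases lt_or_ge j (I.getD i []).length with hj | hj
    · have h2 : sz ((I.getD i []).getD j []) < sz (I.getD i []) := by
        rw [List.getD_eq_getElem _ _ hj]
        exact sz_le_of_mem (List.getElem_mem _)
      omega
    · rw [List.getD_eq_default _ _ hj]
      have := sz_pos I
      simp
      omega
  · rw [List.getD_eq_default I _ hi]
    have := sz_pos I
    simp
    omega

theorem cof_abs (I : List (List (List (ℤ × ℕ)))) (k i j : ℕ) :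
    |cof I k i j| ≤ sz I * 2 ^ sz I := by
  refine (cfl_abs (ety I i j) k (2 ^ sz I) (by positivity) fun q hq => ?_).trans ?_
  · have h1 := abs_lt_sz q.1
    have h2 : sz q < sz (ety I i j) := sz_le_of_mem hq
    have h3 := ety_mem I i j
    have h4 : sz q.1 ≤ sz I := by
      have : sz q = sz q.1 + sz q.2 + 1 := sz_pair q.1 q.2
      omega
    refine h1.le.trans ?_
    exact pow_le_pow_right₀ (by norm_num) h4
  · have h1 := len_le_sz (ety I i j)
    have h2 := ety_mem I i j
    have h3 : ((ety I i j).length : ℤ) ≤ sz I := by exact_mod_cast h1.trans h2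
    exact mul_le_mul_of_nonneg_right h3 (by positivity)

end Pool.Agent.H442R3.SD
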